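import Mathlib

namespace Pool.Agent.H.MP_ad4c49_an

open Set Filter Topology TopologicalSpace

structure Sys (I X : Type) [NormedAddCommGroup X] [NormedSpace ℝ X] where
  P : Set I → X →L[ℝ] X
  e : I → X
  comp : ∀ A B x, P A (P B x) = P (A ∩ B) x
  add : ∀ A x, P A x + P Aᶜ x = x
  le : ∀ A x, ‖P A x‖ ≤ ‖x‖
  upper : ∀ A x y, ‖P A x + P Aᶜ y‖ ^ 2 ≤ ‖P A x‖ ^ 2 + ‖P Aᶜ y‖ ^ 2
  tight : ∀ x ε, 0 < ε → ∃ F : Finset I, ‖x - P F x‖ < ε
  span : ∀ (F : Finset I) x, P F x ∈ Submodule.span ℝ (e '' F)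

variable {I X : Type} [NormedAddCommGroup X] [NormedSpace ℝ X] (s : Sys I X)

lemma le_of_sq_le_sq₀' {a : ℝ} {Y : Type} [SeminormedAddGroup Y] {y : Y} (h : a ^ 2 ≤ ‖y‖ ^ 2) :
    a ≤ ‖y‖ := (abs_le_of_sq_le_sq' h (norm_nonneg _)).2

namespace Sys

lemma compl (A : Set I) (x : X) : s.P Aᶜ x = x - s.P A x := eq_sub_of_add_eq' (s.add A x)

lemma empty (x : X) : s.P ∅ x = 0 := by
  have h := s.comp (∅ : Set I)ᶜ ∅ x
  rw [inter_empty, s.compl, s.comp, inter_empty, sub_self] at h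
  exact h.symm

lemma puniv (x : X) : s.P univ x = x := by
  have := s.compl ∅ x
  rwa [compl_empty, s.empty, sub_zero] at this

lemma mono {A B : Set I} (h : A ⊆ B) (x : X) : ‖x - s.P B x‖ ≤ ‖x - s.P A x‖ := by
  have : x - s.P B x = s.P Bᶜ (x - s.P A x) := by
    rw [← s.compl, ← s.compl, s.comp, inter_eq_left.2 (compl_subset_compl.2 h)]
  rw [this]
  exact s.le _ _

lemma supp (x : X) : ∃ A : Set I, A.Countable ∧ s.P A x = x := by
  choose F hF using fun k : ℕ => s.tight x (1 / (k + 1)) Nat.one_div_pos_of_nat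
  refine ⟨⋃ k, F k, countable_iUnion fun k => (F k).countable_toSet, ?_⟩
  refine (sub_eq_zero.1 (norm_le_zero_iff.1 ?_)).symm
  exact ge_of_tendsto' tendsto_one_div_add_atTop_nhds_zero_nat fun k =>
    (s.mono (subset_iUnion (fun k => (F k : Set I)) k) x).trans (hF k).le

lemma sep {A : Set I} (hA : A.Countable) : IsSeparable {x | s.P A x = x} := by
  classical
  refine ((hA.image s.e).isSeparable.span (R := ℝ)).closure.mono fun x hx => ?_
  refine Metric.mem_closure_iff.2 fun ε hε => ?_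
  obtain ⟨F, hF⟩ := s.tight x ε hε
  refine ⟨s.P (F.filter (· ∈ A)) x, Submodule.span_mono (image_mono fun i hi => ?_) (s.span _ x), ?_⟩
  · exact (Finset.mem_filter.1 hi).2
  · have h1 : x - s.P (F.filter (· ∈ A)) x = s.P A (x - s.P F x) := by
      have : ((F.filter (· ∈ A) : Finset I) : Set I) = A ∩ F := by ext i; simp [and_comm]
      rw [map_sub, s.comp, show s.P A x = x from hx, this]
    rw [dist_eq_norm, h1]
    exact (s.le _ _).trans_lt hF

lemma shrink (φ : X →L[ℝ] ℝ) (ε : ℝ) (hε : 0 < ε) :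
    ∃ F : Finset I, ∀ y, ‖y‖ ≤ 1 → φ (s.P (F : Set I)ᶜ y) ≤ ε := by
  set M := ‖φ‖ with hM
  have hM0 : 0 ≤ M := norm_nonneg _
  set t := ε / (M + 1) with ht
  have ht0 : 0 < t := by positivity
  set η := ε * t / (2 * (M + 1)) with hη
  have hη0 : 0 < η := by positivity
  obtain ⟨x, hx1, hx2⟩ : ∃ x, ‖x‖ ≤ 1 ∧ M - η < φ x := by
    obtain ⟨x, h1, h2⟩ := φ.exists_lt_apply_of_lt_opNorm (r := M - η) (by linarith)
    rcases le_total 0 (φ x) with c | c
    · exact ⟨x, h1.le, by rwa [Real.norm_eq_abs, abs_of_nonneg c] at h2⟩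
    · exact ⟨-x, by rw [norm_neg]; exact h1.le, by
        rwa [Real.norm_eq_abs, abs_of_nonpos c, ← map_neg] at h2⟩
  obtain ⟨F, hF⟩ := s.tight x η hη0
  refine ⟨F, fun y hy => ?_⟩
  have h1 := s.upper F x (t • y)
  have h2 : ‖s.P F x‖ ^ 2 ≤ 1 := pow_le_one₀ (norm_nonneg _) ((s.le _ _).trans hx1)
  have h3 : ‖s.P (F : Set I)ᶜ (t • y)‖ ^ 2 ≤ t ^ 2 := by
    refine pow_le_pow_left₀ (norm_nonneg _) ((s.le _ _).trans ?_) 2
    rw [norm_smul, Real.norm_eq_abs, abs_of_pos ht0]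
    exact mul_le_of_le_one_right ht0.le hy
  have h4 : ‖s.P F x + s.P (F : Set I)ᶜ (t • y)‖ ≤ 1 + t ^ 2 / 2 :=
    (abs_le_of_sq_le_sq' (by nlinarith [sq_nonneg (t ^ 2)]) (by positivity)).2
  have h5 := (le_abs_self _).trans (φ.le_opNorm (s.P F x + s.P (F : Set I)ᶜ (t • y)))
  have h6 := (le_abs_self _).trans (φ.le_opNorm (x - s.P F x))
  rw [map_add, map_smul, map_smul, smul_eq_mul] at h5
  rw [map_sub] at h6
  have h7 : M * ‖x - s.P F x‖ ≤ M * η := mul_le_mul_of_nonneg_left hF.le hM0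
  have h8 := mul_le_mul_of_nonneg_left h4 hM0
  rw [map_smul] at h8
  have e1 : η * (M + 1) = ε * t / 2 := by rw [hη]; field_simp
  have e2 : t * (M + 1) = ε := by rw [ht]; field_simp
  have h9 : t * φ (s.P (F : Set I)ᶜ y) ≤ t * ε := by nlinarith [sq_nonneg t]
  exact le_of_mul_le_mul_left h9 ht0

def Good (U : Submodule ℝ X) (A : Set I) : Prop := ∀ u ∈ U, s.P A u ∈ U

variable {U : Submodule ℝ X}

lemma Good.compl' {A : Set I} (h : s.Good U A) : s.Good U Aᶜ := fun u hu => by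
  rw [s.compl]; exact U.sub_mem hu (h u hu)

lemma Good.inter' {A B : Set I} (h : s.Good U A) (h' : s.Good U B) : s.Good U (A ∩ B) :=
  fun u hu => by rw [← s.comp]; exact h _ (h' u hu)

lemma good_lim (hU : IsClosed (U : Set X)) {B : Set I}
    (h : ∀ F : Finset I, ∃ G, s.Good U G ∧ G ∩ F = B ∩ F) : s.Good U B := by
  intro u hu
  refine hU.closure_subset (Metric.mem_closure_iff.2 fun ε hε => ?_)
  obtain ⟨F, hF⟩ := s.tight u (ε / 2) (half_pos hε)
  obtain ⟨G, hG, e⟩ := h F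
  refine ⟨s.P G u, hG u hu, ?_⟩
  have : s.P B u - s.P G u = s.P B (u - s.P F u) - s.P G (u - s.P F u) := by
    rw [map_sub, map_sub, s.comp, s.comp, e]; abel
  rw [dist_eq_norm, this]
  have h1 := s.le B (u - s.P F u)
  have h2 := s.le G (u - s.P F u)
  linarith [norm_sub_le (s.P B (u - s.P F u)) (s.P G (u - s.P F u))]

lemma step (U : Submodule ℝ X) (A : Set I) (hA : A.Countable) : ∃ B : Set I, B.Countable ∧ A ⊆ B ∧
    ∀ w, s.P A w = w → ∀ u ∈ U, ∀ η > 0, ∃ u' ∈ U, s.P B u' = u' ∧ ‖w - u'‖ < ‖w - u‖ + η := by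
  obtain ⟨D, hD1, hD2, hD3⟩ := (s.sep hA).exists_countable_dense_subset
  have h1 : ∀ (v : X) (k : ℕ), ∃ u' ∈ U, ∀ u ∈ U, ‖v - u'‖ < ‖v - u‖ + 1 / (k + 1) := by
    intro v k
    obtain ⟨u', h1, h2⟩ := (Metric.infDist_lt_iff (x := v) (s := (U : Set X)) ⟨0, U.zero_mem⟩).1
      (lt_add_of_pos_right _ (Nat.one_div_pos_of_nat (n := k)))
    refine ⟨u', h1, fun u hu => ?_⟩
    have := Metric.infDist_le_dist_of_mem (x := v) hu
    rw [dist_eq_norm] at this h2
    linarith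
  choose f hf1 hf2 using h1
  choose S hS1 hS2 using s.supp
  refine ⟨A ∪ ⋃ v ∈ D, ⋃ k, S (f v k),
    hA.union (hD2.biUnion fun v _ => countable_iUnion fun k => hS1 _), subset_union_left, ?_⟩
  intro w hw u hu η hη
  obtain ⟨v, hv, hv2⟩ := Metric.mem_closure_iff.1 (hD3 hw) (η / 3) (by positivity)
  obtain ⟨k, hk⟩ := exists_nat_one_div_lt (show 0 < η / 3 by positivity)
  refine ⟨f v k, hf1 v k, ?_, ?_⟩
  · rw [← hS2 (f v k), s.comp, inter_eq_right.2, hS2]
    exact fun i hi => Or.inr (mem_biUnion hv (mem_iUnion.2 ⟨k, hi⟩))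
  · have h2 := hf2 v k u hu
    rw [dist_eq_norm] at hv2
    have h3 := norm_sub_le_norm_sub_add_norm_sub w v (f v k)
    have h4 := norm_sub_le_norm_sub_add_norm_sub v w u
    rw [norm_sub_rev v w] at h4
    linarith

lemma good_of (hU : IsClosed (U : Set X)) {A : Set I}
    (h : ∀ w, s.P A w = w → ∀ u ∈ U, ∀ η > 0, ∃ u' ∈ U, s.P A u' = u' ∧ ‖w - u'‖ < ‖w - u‖ + η) :
    s.Good U A := by
  intro u hu
  set w := s.P A u with hw
  have hw1 : s.P A w = w := by rw [hw, s.comp, inter_self]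
  set d := Metric.infDist w (U : Set X) with hd
  have hd0 : 0 ≤ d := Metric.infDist_nonneg
  have hne : (U : Set X).Nonempty := ⟨0, U.zero_mem⟩
  set C := ‖s.P Aᶜ u‖ ^ 2 with hC
  have key : ∀ t : ℝ, 0 < t → t ≤ 1 → ∀ η > 0, d ^ 2 ≤ (1 - t) ^ 2 * (d + η) ^ 2 + t ^ 2 * C := by
    intro t ht ht1 η hη
    obtain ⟨u1, h1, h2⟩ := (Metric.infDist_lt_iff (x := w) hne).1 (lt_add_of_pos_right _ (half_pos hη))
    obtain ⟨u', h3, h4, h5⟩ := h w hw1 u1 h1 _ (half_pos hη)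
    rw [dist_eq_norm] at h2
    have h6 : ‖w - u'‖ ≤ d + η := by linarith
    have h7 := Metric.infDist_le_dist_of_mem (x := w)
      (U.add_mem h3 (U.smul_mem t (U.sub_mem hu h3)))
    have e : w - (u' + t • (u - u')) = s.P A ((1 - t) • (w - u')) + s.P Aᶜ ((-t) • u) := by
      rw [map_smul, map_smul, map_sub, hw1, h4, s.compl, ← hw]
      module
    rw [dist_eq_norm, e] at h7
    have h8 := s.upper A ((1 - t) • (w - u')) ((-t) • u)
    have h9 : ‖s.P A ((1 - t) • (w - u'))‖ ≤ (1 - t) * (d + η) := by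
      refine (s.le _ _).trans ?_
      rw [norm_smul, Real.norm_eq_abs, abs_of_nonneg (by linarith)]
      exact mul_le_mul_of_nonneg_left h6 (by linarith)
    have h10 : ‖s.P Aᶜ ((-t) • u)‖ ^ 2 = t ^ 2 * C := by
      rw [map_smul, norm_smul, mul_pow, Real.norm_eq_abs, sq_abs, neg_sq]
    have h11 := pow_le_pow_left₀ (norm_nonneg _) h9 2
    have h12 := pow_le_pow_left₀ hd0 h7 2
    rw [mul_pow] at h11
    linarith
  have k2 : ∀ t : ℝ, 0 < t → t ≤ 1 → d ^ 2 ≤ t * C := by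
    intro t ht ht1
    have h1 : d ^ 2 ≤ (1 - t) ^ 2 * (d + 0) ^ 2 + t ^ 2 * C := by
      have hc : Continuous fun η : ℝ => (1 - t) ^ 2 * (d + η) ^ 2 + t ^ 2 * C := by fun_prop
      exact ge_of_tendsto ((hc.tendsto 0).mono_left (nhdsWithin_le_nhds (s := Ioi 0)))
        (eventually_nhdsWithin_of_forall fun η hη => key t ht ht1 η hη)
    have h2 : t * d ^ 2 ≤ t * (t * C) := by
      nlinarith [mul_nonneg (mul_nonneg ht.le (sub_nonneg.2 ht1)) (sq_nonneg d)]
    exact le_of_mul_le_mul_left h2 ht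
  have k3 : d ^ 2 ≤ 0 * C := by
    have hc : Continuous fun t : ℝ => t * C := by fun_prop
    refine ge_of_tendsto ((hc.tendsto 0).mono_left (nhdsWithin_le_nhds (s := Ioi 0))) ?_
    filter_upwards [Ioc_mem_nhdsGT (zero_lt_one' ℝ)] with t ht using k2 t ht.1 ht.2
  have k4 : d = 0 := by nlinarith
  exact (hU.mem_iff_infDist_zero hne).2 k4

lemma exists_good (hU : IsClosed (U : Set X)) (i : I) :
    ∃ A : Set I, A.Countable ∧ i ∈ A ∧ s.Good U A := by
  choose G hG1 hG2 hG3 using s.step U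
  let a : ℕ → {A : Set I // A.Countable} := fun n =>
    Nat.rec ⟨{i}, countable_singleton i⟩ (fun _ A => ⟨G A.1 A.2, hG1 A.1 A.2⟩) n
  have hm : Monotone fun n => (a n).1 := monotone_nat_of_le_succ fun n => hG2 (a n).1 (a n).2
  refine ⟨⋃ n, (a n).1, countable_iUnion fun n => (a n).2, mem_iUnion.2 ⟨0, rfl⟩, s.good_of hU ?_⟩
  intro w hw u hu η hη
  classical
  obtain ⟨F, hF⟩ := s.tight w (η / 3) (by positivity)
  obtain ⟨n, hn⟩ : ∃ n, (F : Set I) ∩ ⋃ n, (a n).1 ⊆ (a n).1 := by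
    have : ∀ j, ∃ n, j ∈ ⋃ n, (a n).1 → j ∈ (a n).1 := fun j => by
      by_cases c : j ∈ ⋃ n, (a n).1
      · obtain ⟨n, hn⟩ := mem_iUnion.1 c
        exact ⟨n, fun _ => hn⟩
      · exact ⟨0, fun h => absurd h c⟩
    choose N hN using this
    exact ⟨F.sup N, fun j hj => hm (Finset.le_sup (f := N) hj.1) (hN j hj.2)⟩
  have h1 : ‖w - s.P (a n).1 w‖ < η / 3 := by
    refine (s.mono hn w).trans_lt ?_
    have : w - s.P (F ∩ ⋃ n, (a n).1) w = s.P (⋃ n, (a n).1) (w - s.P F w) := by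
      rw [map_sub, s.comp, hw, inter_comm]
    rw [this]
    exact (s.le _ _).trans_lt hF
  obtain ⟨u', h2, h3, h4⟩ := hG3 (a n).1 (a n).2 (s.P (a n).1 w) (by rw [s.comp, inter_self]) u hu
    (η / 3) (by positivity)
  refine ⟨u', h2, ?_, ?_⟩
  · rw [← h3, s.comp, inter_eq_right.2 (subset_iUnion (fun n => (a n).1) (n + 1))]
  · have h5 := norm_sub_le_norm_sub_add_norm_sub w (s.P (a n).1 w) u'
    have h6 := norm_sub_le_norm_sub_add_norm_sub (s.P (a n).1 w) w u
    rw [norm_sub_rev (s.P (a n).1 w) w] at h6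
    linarith

def atom (U : Submodule ℝ X) (i : I) : Set I := {j | ∀ A, s.Good U A → i ∈ A → j ∈ A}

lemma atom_good (hU : IsClosed (U : Set X)) (i : I) : s.Good U (s.atom U i) := by
  refine s.good_lim hU fun F => ?_
  classical
  have : ∃ G, s.Good U G ∧ i ∈ G ∧ ∀ j ∈ F, j ∈ G → j ∈ s.atom U i := by
    induction F using Finset.induction_on with
    | empty => exact ⟨univ, fun u hu => by rwa [s.puniv], trivial, by simp⟩
    | insert j F _ ih =>
      obtain ⟨G, h1, h2, h3⟩ := ih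
      by_cases c : j ∈ s.atom U i
      · refine ⟨G, h1, h2, fun k hk => ?_⟩
        rcases Finset.mem_insert.1 hk with rfl | hk
        · exact fun _ => c
        · exact h3 k hk
      · simp only [atom, mem_ofPred_eq, not_forall] at c
        obtain ⟨A, a1, a2, a3⟩ := c
        refine ⟨G ∩ A, Good.inter' s h1 a1, ⟨h2, a2⟩, fun k hk hk2 => ?_⟩
        rcases Finset.mem_insert.1 hk with rfl | hk
        · exact absurd hk2.2 a3
        · exact h3 k hk hk2.1
  obtain ⟨G, h1, h2, h3⟩ := this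
  refine ⟨G, h1, Set.ext fun j => ⟨fun h => ⟨h3 j h.2 h.1, h.2⟩, fun h => ⟨h.1 G h1 h2, h.2⟩⟩⟩

lemma atom_count (hU : IsClosed (U : Set X)) (i : I) : (s.atom U i).Countable := by
  obtain ⟨A, h1, h2, h3⟩ := s.exists_good hU i
  exact h1.mono fun j hj => hj A h3 h2

lemma atom_eq {i j k : I} (hi : k ∈ s.atom U i) (hj : k ∈ s.atom U j) :
    s.atom U i = s.atom U j := by
  have sy : ∀ {a b : I}, b ∈ s.atom U a → a ∈ s.atom U b := fun {a b} h A hA hb => by
    by_contra c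
    exact h Aᶜ (Good.compl' s hA) c hb
  ext l
  exact ⟨fun h A hA hj' => h A hA (sy hi A hA (hj A hA hj')),
    fun h A hA hi' => h A hA (sy hj A hA (hi A hA hi'))⟩

lemma fin_est {Γ : Type} (z : Γ → X) (A : Γ → Set I) (hz : ∀ γ, s.P (A γ) (z γ) = z γ)
    (hd : Pairwise fun a b => Disjoint (A a) (A b)) (F : Finset Γ) :
    ‖∑ γ ∈ F, z γ‖ ^ 2 ≤ ∑ γ ∈ F, ‖z γ‖ ^ 2 := by
  classical
  induction F using Finset.induction_on with
  | empty => simp
  | insert j F hj ih =>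
    rw [Finset.sum_insert hj, Finset.sum_insert hj]
    have h1 : s.P (A j)ᶜ (∑ γ ∈ F, z γ) = ∑ γ ∈ F, z γ := by
      rw [map_sum]
      refine Finset.sum_congr rfl fun γ hγ => ?_
      have : γ ≠ j := fun c => hj (c ▸ hγ)
      rw [← hz γ, s.comp, inter_eq_right.2 (hd this).subset_compl_right]
    have h2 := s.upper (A j) (z j) (∑ γ ∈ F, z γ)
    rw [h1, hz] at h2
    linarith

lemma op [CompleteSpace X] (hU : IsClosed (U : Set X)) {Γ : Type} [DecidableEq Γ] (z : Γ → X)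
    (A : Γ → Set I) (hz : ∀ γ, s.P (A γ) (z γ) = z γ) (h1 : ∀ γ, ‖z γ‖ ≤ 1) (hzU : ∀ γ, z γ ∈ U)
    (hd : Pairwise fun a b => Disjoint (A a) (A b)) :
    ∃ S : lp (fun _ : Γ => ℝ) 2 →L[ℝ] X, ‖S‖ ≤ 1 ∧ (∀ c, S c ∈ U) ∧
      ∀ γ, S (lp.single 2 γ 1) = z γ := by
  have est : ∀ (c : lp (fun _ : Γ => ℝ) 2) (F : Finset Γ),
      ‖∑ γ ∈ F, c γ • z γ‖ ^ 2 ≤ ∑ γ ∈ F, ‖c γ‖ ^ 2 := by
    intro c F
    refine (s.fin_est (fun γ => c γ • z γ) A (fun γ => by rw [map_smul, hz]) hd F).trans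
      (Finset.sum_le_sum fun γ _ => pow_le_pow_left₀ (norm_nonneg _) ?_ 2)
    rw [norm_smul]
    exact mul_le_of_le_one_right (norm_nonneg _) (h1 γ)
  have hs : ∀ c : lp (fun _ : Γ => ℝ) 2, HasSum (fun γ => ‖c γ‖ ^ 2) (‖c‖ ^ 2) := fun c => by
    simpa using lp.hasSum_norm (by simp) c
  have sm : ∀ c : lp (fun _ : Γ => ℝ) 2, Summable fun γ => c γ • z γ := by
    intro c
    rw [summable_iff_vanishing_norm]
    intro ε hε
    obtain ⟨F, hF⟩ := summable_iff_vanishing_norm.1 (hs c).summable (ε ^ 2) (by positivity)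
    refine ⟨F, fun t ht => ?_⟩
    have := (est c t).trans_lt ((le_abs_self _).trans_lt (hF t ht))
    exact lt_of_pow_lt_pow_left₀ 2 hε.le this
  have bd : ∀ c : lp (fun _ : Γ => ℝ) 2, ‖∑' γ, c γ • z γ‖ ≤ 1 * ‖c‖ := by
    intro c
    rw [one_mul]
    refine le_of_tendsto' (sm c).hasSum.norm fun F => ?_
    exact le_of_sq_le_sq₀' ((est c F).trans (sum_le_hasSum F (fun _ _ => sq_nonneg _) (hs c)))
  refine ⟨LinearMap.mkContinuous ⟨⟨fun c => ∑' γ, c γ • z γ, fun a b => ?_⟩, fun r a => ?_⟩ 1 bd,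
    LinearMap.mkContinuous_norm_le _ zero_le_one _, fun c => ?_, fun γ => ?_⟩
  · rw [← (sm a).tsum_add (sm b)]
    exact tsum_congr fun l => add_smul (a l : ℝ) (b l) (z l)
  · rw [RingHom.id_apply, ← (sm a).tsum_const_smul r]
    exact tsum_congr fun l => mul_smul _ _ _
  · exact hU.mem_of_tendsto (sm c).hasSum
      (Eventually.of_forall fun F => U.sum_mem fun γ _ => U.smul_mem _ (hzU γ))
  · refine (tsum_eq_single γ fun k hk => ?_).trans ?_
    · rw [lp.single_apply_ne _ _ _ hk, zero_smul]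
    · rw [lp.single_apply_self, one_smul]

include s in
lemma gen [CompleteSpace X] [Nonempty I] (hU : IsClosed (U : Set X)) {Γ : Type} [DecidableEq Γ] (g : Γ ≃ I × ℕ) :
    ∃ S : lp (fun _ : Γ => ℝ) 2 →L[ℝ] X, (∀ c, S c ∈ U) ∧ (U : Set X) ⊆ closure (range S) := by
  classical
  have h0 : ∀ i : I, ∃ d : ℕ → X, (∀ k, d k ∈ U ∧ s.P (s.atom U i) (d k) = d k ∧ ‖d k‖ ≤ 1) ∧
      ∀ x, x ∈ U → s.P (s.atom U i) x = x → ‖x‖ ≤ 1 → x ∈ closure (range d) := by
    intro i
    have h1 : IsSeparable {x | x ∈ U ∧ s.P (s.atom U i) x = x ∧ ‖x‖ ≤ 1} :=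
      (s.sep (s.atom_count hU i)).mono fun x hx => hx.2.1
    obtain ⟨D, d1, d2, d3⟩ := h1.exists_countable_dense_subset
    have hne : D.Nonempty := closure_nonempty_iff.1 ⟨0, d3 ⟨U.zero_mem, map_zero _, by simp⟩⟩
    obtain ⟨d, rfl⟩ := d2.exists_eq_range hne
    exact ⟨d, fun k => d1 (mem_range_self k), fun x a b c => d3 ⟨a, b, c⟩⟩
  choose d hd1 hd2 using h0
  have hself : ∀ i, i ∈ s.atom U i := fun i _ _ h => h
  let r : I → I := fun i => Function.invFun (s.atom U) (s.atom U i)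
  have hr : ∀ i, s.atom U (r i) = s.atom U i := fun i => Function.invFun_eq ⟨i, rfl⟩
  have hr2 : ∀ i j, s.atom U i = s.atom U j → r i = r j := fun i j h => by simp only [r, h]
  let c : ℕ → Γ → Prop := fun k γ => (g γ).2 = k ∧ r (g γ).1 = (g γ).1
  have h1 : ∀ k : ℕ, ∃ S : lp (fun _ : Γ => ℝ) 2 →L[ℝ] X, ‖S‖ ≤ 1 ∧ (∀ c, S c ∈ U) ∧
      ∀ γ, S (lp.single 2 γ 1) = if c k γ then d (g γ).1 k else 0 := by
    intro k
    refine s.op hU _ (fun γ => if c k γ then s.atom U (g γ).1 else ∅) (fun γ => ?_) (fun γ => ?_)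
      (fun γ => ?_) (fun a b hab => ?_)
    · split_ifs
      · exact (hd1 _ _).2.1
      · exact map_zero _
    · split_ifs
      · exact (hd1 _ _).2.2
      · simp
    · split_ifs
      · exact (hd1 _ _).1
      · exact U.zero_mem
    · beta_reduce
      split_ifs with ha hb
      · refine Set.disjoint_left.2 fun l h1 h2 => hab (g.injective (Prod.ext ?_ ?_))
        · rw [← ha.2, ← hb.2]; exact hr2 _ _ (s.atom_eq h1 h2)
        · rw [ha.1, hb.1]
      all_goals simp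
  choose S hS1 hS2 hS3 using h1
  have hsum : Summable fun k : ℕ => (1 / 2 : ℝ) ^ k • S k := by
    refine Summable.of_norm_bounded summable_geometric_two fun k => ?_
    rw [norm_smul, Real.norm_eq_abs, abs_of_pos (by positivity)]
    exact mul_le_of_le_one_right (by positivity) (hS1 k)
  set T := ∑' k, (1 / 2 : ℝ) ^ k • S k with hT
  have hev : ∀ x, HasSum (fun k : ℕ => (1 / 2 : ℝ) ^ k • S k x) (T x) := fun x =>
    hsum.hasSum.mapL (ContinuousLinearMap.apply ℝ X x)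
  refine ⟨T, fun x => hU.mem_of_tendsto (hev x)
    (Eventually.of_forall fun F => U.sum_mem fun k _ => U.smul_mem _ (hS2 k x)), ?_⟩
  set M := (LinearMap.range T.toLinearMap).topologicalClosure with hM
  have m1 : ∀ i k, r i = i → d i k ∈ M := by
    intro i k hi
    refine Submodule.le_topologicalClosure _ ⟨(2 : ℝ) ^ k • lp.single 2 (g.symm (i, k)) 1, ?_⟩
    have h2 : T (lp.single 2 (g.symm (i, k)) 1) = (1 / 2 : ℝ) ^ k • d i k := by
      refine (hev _).unique ?_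
      have := hasSum_single (f := fun m : ℕ => (1 / 2 : ℝ) ^ m • S m (lp.single 2 (g.symm (i, k)) 1))
        k (fun m hm => by
          rw [hS3, if_neg, smul_zero]
          exact fun h => hm (by simpa [c] using h.1.symm))
      rw [hS3, if_pos (by simp [c, hi])] at this
      simpa using this
    show T _ = _
    rw [map_smul, h2, smul_smul, ← mul_pow]
    simp
  have m2 : ∀ i, ∀ u ∈ U, s.P (s.atom U i) u ∈ M := by
    intro i u hu
    set x := s.P (s.atom U i) u with hx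
    have hxU : x ∈ U := s.atom_good hU i u hu
    have hp : 0 < ‖x‖ + 1 := by positivity
    have h2 := hd2 (r i) ((‖x‖ + 1)⁻¹ • x) (U.smul_mem _ hxU)
      (by rw [map_smul, hr, hx, s.comp, inter_self])
      (by rw [norm_smul, norm_inv, Real.norm_eq_abs, abs_of_pos hp, inv_mul_le_iff₀ hp]; linarith)
    have h3 : (‖x‖ + 1)⁻¹ • x ∈ M :=
      closure_minimal (range_subset_iff.2 fun k => m1 _ k (hr2 _ _ (hr i)))
        (Submodule.isClosed_topologicalClosure _) h2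
    have h4 := M.smul_mem (‖x‖ + 1) h3
    rwa [smul_smul, mul_inv_cancel₀ hp.ne', one_smul] at h4
  have m3 : ∀ F : Finset I, ∃ B : Set I, (F : Set I) ⊆ B ∧ s.Good U B ∧ ∀ u ∈ U, s.P B u ∈ M := by
    intro F
    induction F using Finset.induction_on with
    | empty => exact ⟨∅, by simp, fun u _ => by rw [s.empty]; exact U.zero_mem,
        fun u _ => by rw [s.empty]; exact M.zero_mem⟩
    | insert j F _ ih =>
      obtain ⟨B, b1, b2, b3⟩ := ih
      have e : ∀ u, s.P (B ∪ s.atom U j) u = s.P B u + s.P (s.atom U j) (s.P Bᶜ u) := by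
        intro u
        rw [← s.add B (s.P (B ∪ s.atom U j) u), s.comp, s.comp, s.comp,
          inter_eq_left.2 subset_union_left, inter_union_distrib_left, compl_inter_self, empty_union,
          inter_comm]
      refine ⟨B ∪ s.atom U j, ?_, fun u hu => ?_, fun u hu => ?_⟩
      · rw [Finset.coe_insert]
        exact insert_subset (Or.inr (hself j)) (b1.trans subset_union_left)
      · rw [e]
        exact U.add_mem (b2 u hu) (s.atom_good hU j _ (Good.compl' s b2 u hu))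
      · rw [e]
        exact M.add_mem (b3 u hu) (m2 j _ (Good.compl' s b2 u hu))
  intro u hu
  have : u ∈ closure (M : Set X) := by
    refine Metric.mem_closure_iff.2 fun ε hε => ?_
    obtain ⟨F, hF⟩ := s.tight u ε hε
    obtain ⟨B, b1, -, b3⟩ := m3 F
    exact ⟨_, b3 u hu, by rw [dist_eq_norm]; exact (s.mono b1 u).trans_lt hF⟩
  exact (Submodule.isClosed_topologicalClosure _).closure_subset this

include s in
lemma kerpos [CompleteSpace X] [Nonempty I] {Γ : Type} [DecidableEq Γ] (g : Γ ≃ I × ℕ)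
    (hrefl : Function.Surjective (NormedSpace.inclusionInDoubleDual ℝ X))
    (π : X →L[ℝ] lp (fun _ : Γ => ℝ) 2) (hπ : Function.Surjective π)
    (Z : Submodule ℝ (StrongDual ℝ X)) (hZ : IsClosed (Z : Set (StrongDual ℝ X))) :
    ∃ T : StrongDual ℝ X →L[ℝ] StrongDual ℝ X, T.ker = Z := by
  let U : Submodule ℝ X := ⨅ φ : Z, (φ.1 : X →L[ℝ] ℝ).ker
  have hU : IsClosed (U : Set X) := by
    rw [Submodule.coe_iInf]
    exact isClosed_iInter fun φ => ContinuousLinearMap.isClosed_ker _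
  obtain ⟨S, h1, h2⟩ := s.gen hU g
  refine ⟨(ContinuousLinearMap.compL ℝ X X ℝ).flip (S ∘L π), Submodule.ext fun φ => ⟨fun h => ?_,
    fun h => ?_⟩⟩
  · have h3 : ∀ x, φ (S (π x)) = 0 := fun x => congrArg (fun f : X →L[ℝ] ℝ => f x) h
    have h4 : ∀ u ∈ U, φ u = 0 := fun u hu =>
      closure_minimal (t := (φ.ker : Set X)) (by
        rintro _ ⟨c, rfl⟩
        obtain ⟨x, rfl⟩ := hπ c
        exact h3 x) φ.isClosed_ker (h2 hu)
    by_contra c
    obtain ⟨Φ, v, a1, a2⟩ := geometric_hahn_banach_closed_point Z.convex hZ c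
    have a3 : ∀ ψ ∈ Z, Φ ψ = 0 := by
      intro ψ hψ
      by_contra c2
      have := a1 _ (Z.smul_mem (v / Φ ψ) hψ)
      rw [map_smul, smul_eq_mul, div_mul_cancel₀ _ c2] at this
      exact lt_irrefl _ this
    obtain ⟨x, rfl⟩ := hrefl Φ
    have a4 : φ x = 0 := h4 x ((Submodule.mem_iInf _).2 fun ψ => a3 ψ.1 ψ.2)
    have a5 := a1 0 Z.zero_mem
    rw [map_zero] at a5
    have a6 : v < φ x := a2
    linarith
  · exact ContinuousLinearMap.ext fun x => (Submodule.mem_iInf _).1 (h1 (π x)) ⟨φ, h⟩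

end Sys

end Pool.Agent.H.MP_ad4c49_an
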