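import Pool.Agent.H.MP_ad4c49_an.Abs

namespace Pool.Agent.H.MP_ad4c49_an

open Set Filter Topology
open scoped ENNReal

abbrev H : Type := lp (fun _ : ℝ => ℝ) 2
abbrev B : Type := lp (fun _ : ℝ => ℝ) ∞
abbrev E : Type := lp (fun _ : ℕ => B × H) 2

lemma hs2 {α : Type} {F : α → Type} [∀ i, NormedAddCommGroup (F i)] (c : lp F 2) :
    HasSum (fun γ => ‖c γ‖ ^ 2) (‖c‖ ^ 2) := by simpa using lp.hasSum_norm (by simp) c

lemma up2 {α : Type} {F : α → Type} [∀ i, NormedAddCommGroup (F i)] (x y : lp F 2)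
    (h : ∀ i, ‖x i + y i‖ ^ 2 ≤ ‖x i‖ ^ 2 + ‖y i‖ ^ 2) : ‖x + y‖ ^ 2 ≤ ‖x‖ ^ 2 + ‖y‖ ^ 2 :=
  hasSum_le h (hs2 (x + y)) ((hs2 x).add (hs2 y))

open Classical in
noncomputable def ind (A : Set ℝ) (γ : ℝ) : ℝ →L[ℝ] ℝ :=
  if γ ∈ A then ContinuousLinearMap.id ℝ ℝ else 0

lemma ind_le (A : Set ℝ) (γ : ℝ) : ‖ind A γ‖ ≤ 1 := by
  unfold ind; split_ifs <;> simp

noncomputable def mul (p : ℝ≥0∞) [Fact (1 ≤ p)] (A : Set ℝ) :
    lp (fun _ : ℝ => ℝ) p →L[ℝ] lp (fun _ : ℝ => ℝ) p := lp.mapCLM p (ind A) zero_le_one (ind_le A)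

open Classical in
lemma mul_app (p : ℝ≥0∞) [Fact (1 ≤ p)] (A : Set ℝ) (x : lp (fun _ : ℝ => ℝ) p) (γ : ℝ) :
    mul p A x γ = if γ ∈ A then x γ else 0 := by
  show ind A γ (x γ) = _
  unfold ind; split_ifs <;> rfl

lemma mul_le (p : ℝ≥0∞) [Fact (1 ≤ p)] (A : Set ℝ) (x : lp (fun _ : ℝ => ℝ) p) :
    ‖mul p A x‖ ≤ ‖x‖ := by
  have := (mul p A).le_of_opNorm_le (lp.norm_mapCLM_le p (ind A) zero_le_one (ind_le A)) x
  rwa [one_mul] at this

lemma mul_pt (p : ℝ≥0∞) [Fact (1 ≤ p)] (A : Set ℝ) (x y : lp (fun _ : ℝ => ℝ) p) (γ : ℝ) :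
    ‖mul p A x γ + mul p Aᶜ y γ‖ ^ 2 ≤ ‖mul p A x γ‖ ^ 2 + ‖mul p Aᶜ y γ‖ ^ 2 := by
  rw [mul_app, mul_app]
  by_cases h : γ ∈ A <;> simp [h]

noncomputable def lev (A : Set ℝ) : B × H →L[ℝ] B × H := (mul ∞ A).prodMap (mul 2 A)

lemma lev_le (A : Set ℝ) : ‖lev A‖ ≤ 1 :=
  (lev A).opNorm_le_bound zero_le_one fun x => by
    rw [one_mul]
    exact max_le_max (mul_le ∞ A x.1) (mul_le 2 A x.2)

lemma lev_up (A : Set ℝ) (x y : B × H) :
    ‖lev A x + lev Aᶜ y‖ ^ 2 ≤ ‖lev A x‖ ^ 2 + ‖lev Aᶜ y‖ ^ 2 := by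
  rw [← Real.le_sqrt (norm_nonneg _) (by positivity)]
  have a1 := pow_le_pow_left₀ (norm_nonneg _) (norm_fst_le (lev A x)) 2
  have a2 := pow_le_pow_left₀ (norm_nonneg _) (norm_fst_le (lev Aᶜ y)) 2
  have a3 := pow_le_pow_left₀ (norm_nonneg _) (norm_snd_le (lev A x)) 2
  have a4 := pow_le_pow_left₀ (norm_nonneg _) (norm_snd_le (lev Aᶜ y)) 2
  refine max_le (lp.norm_le_of_forall_le (Real.sqrt_nonneg _) fun γ => ?_) ?_
  · rw [Real.le_sqrt (norm_nonneg _) (by positivity)]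
    have b1 := pow_le_pow_left₀ (norm_nonneg _) (lp.norm_apply_le_norm (by simp) (lev A x).1 γ) 2
    have b2 := pow_le_pow_left₀ (norm_nonneg _) (lp.norm_apply_le_norm (by simp) (lev Aᶜ y).1 γ) 2
    exact (mul_pt ∞ A x.1 y.1 γ).trans (add_le_add (b1.trans a1) (b2.trans a2))
  · rw [Real.le_sqrt (norm_nonneg _) (by positivity)]
    exact (up2 _ _ (mul_pt 2 A x.2 y.2)).trans (add_le_add a3 a4)

noncomputable def PE (A : Set (ℕ × ℝ)) : E →L[ℝ] E :=
  lp.mapCLM 2 (fun n => lev {γ | (n, γ) ∈ A}) zero_le_one fun _ => lev_le _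

noncomputable def f1 (i : ℕ × ℝ) : E →L[ℝ] ℝ :=
  lp.evalCLM ℝ (fun _ : ℝ => ℝ) ∞ i.2 ∘L ContinuousLinearMap.fst ℝ B H ∘L
    lp.evalCLM ℝ (fun _ : ℕ => B × H) 2 i.1

noncomputable def f2 (n : ℕ) : E →L[ℝ] H :=
  ContinuousLinearMap.snd ℝ B H ∘L lp.evalCLM ℝ (fun _ : ℕ => B × H) 2 n

noncomputable def G : Submodule ℝ E :=
  ⨅ i : ℕ × ℝ, (f1 i - (4 : ℝ) ^ i.1 • (lp.evalCLM ℝ (fun _ : ℝ => ℝ) 2 i.2 ∘L f2 i.1)).ker

lemma mem_G (v : E) : v ∈ G ↔ ∀ n γ, (v n).1 γ = 4 ^ n * (v n).2 γ := by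
  rw [G, Submodule.mem_iInf, Prod.forall]
  exact forall₂_congr fun n γ => sub_eq_zero

def X : Type := G
noncomputable instance : NormedAddCommGroup X := inferInstanceAs (NormedAddCommGroup G)
noncomputable instance : NormedSpace ℝ X := inferInstanceAs (NormedSpace ℝ G)
instance : CompleteSpace X := by
  have : IsClosed (G : Set E) := by
    rw [G, Submodule.coe_iInf]
    exact isClosed_iInter fun φ => ContinuousLinearMap.isClosed_ker _
  exact this.isComplete.completeSpace_coe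

noncomputable def val : X →L[ℝ] E := G.subtypeL
lemma val_norm (x : X) : ‖val x‖ = ‖x‖ := rfl
noncomputable def π (n : ℕ) : X →L[ℝ] H := f2 n ∘L val
noncomputable def co (i : ℕ × ℝ) : X →L[ℝ] ℝ := lp.evalCLM ℝ (fun _ : ℝ => ℝ) 2 i.2 ∘L π i.1

lemma co_eq (i : ℕ × ℝ) (x : X) : co i x = π i.1 x i.2 := rfl

lemma xext {x y : X} (h : ∀ i, co i x = co i y) : x = y :=
  Subtype.ext (lp.ext (funext fun n => Prod.ext (lp.ext (funext fun γ =>
    ((mem_G _).1 x.2 n γ).trans ((congrArg (4 ^ n * ·) (h (n, γ))).trans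
      ((mem_G _).1 y.2 n γ).symm))) (lp.ext (funext fun γ => h (n, γ)))))

noncomputable def P (A : Set (ℕ × ℝ)) : X →L[ℝ] X :=
  (PE A ∘L val).codRestrict G fun x => (mem_G _).2 fun n γ => by
    show mul ∞ _ (x.1 n).1 γ = 4 ^ n * mul 2 _ (x.1 n).2 γ
    rw [mul_app, mul_app]
    split_ifs
    · exact (mem_G _).1 x.2 n γ
    · simp

open Classical in
lemma co_P (A : Set (ℕ × ℝ)) (x : X) (i : ℕ × ℝ) : co i (P A x) = if i ∈ A then co i x else 0 := by
  have := mul_app 2 {γ | (i.1, γ) ∈ A} (x.1 i.1).2 i.2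
  convert this using 1 <;> rfl

noncomputable def inc : H →L[ℝ] B :=
  (lp.linearMapOfLE ℝ (fun _ : ℝ => ℝ) le_top).mkContinuous 1 fun x => by
    rw [one_mul]
    exact lp.norm_le_of_forall_le (norm_nonneg _) fun γ => lp.norm_apply_le_norm (by simp) x γ

noncomputable def emb (n : ℕ) : H →L[ℝ] B × H := ((4 : ℝ) ^ n • inc).prod (ContinuousLinearMap.id ℝ H)

noncomputable def ι (n : ℕ) : H →L[ℝ] X :=
  (lp.singleContinuousLinearMap ℝ (fun _ : ℕ => B × H) 2 n ∘L emb n).codRestrict G fun h =>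
    (mem_G _).2 fun m γ => by
      show ((lp.single 2 n (emb n h) : E) m).1 γ = 4 ^ m * ((lp.single 2 n (emb n h) : E) m).2 γ
      by_cases c : m = n
      · subst c; rw [lp.single_apply_self]; rfl
      · rw [lp.single_apply_ne _ _ _ c]; exact (mul_zero _).symm

lemma val_ι (n : ℕ) (h : H) : val (ι n h) = lp.single 2 n (emb n h) := rfl

lemma π_ι (m n : ℕ) (h : H) : π m (ι n h) = if m = n then h else 0 := by
  show ((lp.single 2 n (emb n h) : E) m).2 = _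
  split_ifs with c
  · subst c; rw [lp.single_apply_self]; rfl
  · rw [lp.single_apply_ne _ _ _ c]; rfl

lemma co_ι (i : ℕ × ℝ) (n : ℕ) (h : H) : co i (ι n h) = if i.1 = n then h i.2 else 0 := by
  rw [co_eq, π_ι]; split_ifs <;> rfl

lemma emb_π (x : X) (n : ℕ) : emb n (π n x) = val x n :=
  Prod.ext (lp.ext (funext fun γ => ((mem_G _).1 x.2 n γ).symm)) rfl

open Classical in
noncomputable def e (i : ℕ × ℝ) : X := ι i.1 (lp.single 2 i.2 1)

open Classical in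
lemma co_e (i j : ℕ × ℝ) : co i (e j) = if i = j then 1 else 0 := by
  rw [e, co_ι, lp.single_apply]
  obtain ⟨a, b⟩ := i
  obtain ⟨c, d⟩ := j
  by_cases h1 : a = c <;> by_cases h2 : b = d <;> simp [h1, h2]

lemma dense_e (x : X) : x ∈ (Submodule.span ℝ (range e)).topologicalClosure := by
  classical
  set M := (Submodule.span ℝ (range e)).topologicalClosure
  have hM : IsClosed (M : Set X) := Submodule.isClosed_topologicalClosure _
  have h1 : ∀ n h, ι n h ∈ M := fun n h => by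
    refine hM.mem_of_tendsto ((lp.hasSum_single (by simp) h).mapL (ι n))
      (Eventually.of_forall fun F => M.sum_mem fun γ _ => ?_)
    rw [show lp.single 2 γ (h γ) = h γ • (lp.single 2 γ 1 : H) by rw [← lp.single_smul]; simp,
      map_smul]
    exact M.smul_mem _ (Submodule.le_topologicalClosure _ (Submodule.subset_span ⟨(n, γ), rfl⟩))
  have h2 : HasSum (fun n => ι n (π n x)) x := by
    have h3 := lp.hasSum_single (by simp) (val x)
    refine tendsto_subtype_rng.2 (h3.congr fun F => ?_)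
    show _ = val _
    rw [map_sum]
    exact Finset.sum_congr rfl fun n _ => by rw [val_ι, emb_π]
  exact hM.mem_of_tendsto h2 (Eventually.of_forall fun F => M.sum_mem fun n _ => h1 n _)

lemma P_fin (F : Finset (ℕ × ℝ)) (x : X) : P F x = ∑ i ∈ F, co i x • e i := by
  classical
  refine xext fun j => ?_
  rw [co_P, map_sum]
  simp only [map_smul, co_e, smul_eq_mul, mul_ite, mul_one, mul_zero, Finset.sum_ite_eq]
  simp

lemma P_le (A : Set (ℕ × ℝ)) (x : X) : ‖P A x‖ ≤ ‖x‖ := by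
  have := (PE A).le_of_opNorm_le (lp.norm_mapCLM_le 2 _ zero_le_one fun _ => lev_le _) (val x)
  rwa [one_mul] at this

noncomputable def sys : Sys (ℕ × ℝ) X where
  P := P
  e := e
  comp A B x := xext fun i => by
    rw [co_P, co_P, co_P]
    by_cases h1 : i ∈ A <;> by_cases h2 : i ∈ B <;> simp [h1, h2]
  add A x := xext fun i => by
    rw [map_add, co_P, co_P]
    by_cases h1 : i ∈ A <;> simp [h1]
  le := P_le
  upper A x y := up2 (PE A (val x)) (PE Aᶜ (val y)) fun n => lev_up {γ | (n, γ) ∈ A} _ _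
  tight x ε hε := by
    classical
    obtain ⟨w, hw, h⟩ := Metric.mem_closure_iff.1 (dense_e x) (ε / 2) (half_pos hε)
    have : ∃ F : Finset (ℕ × ℝ), ∀ i ∉ F, co i w = 0 := by
      clear h
      induction hw using Submodule.span_induction with
      | mem _ h => obtain ⟨j, rfl⟩ := h; exact ⟨{j}, fun i hi => by simpa [co_e] using hi⟩
      | zero => exact ⟨∅, fun i _ => map_zero _⟩
      | add a b _ _ ha hb =>
        obtain ⟨F, hF⟩ := ha
        obtain ⟨F', hF'⟩ := hb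
        refine ⟨F ∪ F', fun i hi => ?_⟩
        rw [Finset.mem_union, not_or] at hi
        rw [map_add, hF i hi.1, hF' i hi.2, add_zero]
      | smul c a _ ha =>
        obtain ⟨F, hF⟩ := ha
        exact ⟨F, fun i hi => by rw [map_smul, hF i hi, smul_zero]⟩
    obtain ⟨F, hF⟩ := this
    have h1 : P F w = w := xext fun i => by
      rw [co_P]
      split_ifs with c
      · rfl
      · exact (hF i c).symm
    refine ⟨F, ?_⟩
    have h2 : x - P F x = (x - w) - P F (x - w) := by rw [map_sub, h1]; abel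
    rw [dist_eq_norm] at h
    have h3 := P_le F (x - w)
    rw [h2]
    linarith [norm_sub_le (x - w) (P F (x - w))]
  span F x := by
    rw [P_fin]
    exact Submodule.sum_mem _ fun i hi => Submodule.smul_mem _ _ (Submodule.subset_span ⟨i, hi, rfl⟩)

lemma hrefl {V : Type} [NormedAddCommGroup V] [InnerProductSpace ℝ V] [CompleteSpace V]
    (Ψ : (V →L[ℝ] ℝ) →L[ℝ] ℝ) : ∃ x : V, ∀ ψ, Ψ ψ = ψ x := by
  let f : V →L[ℝ] ℝ := LinearMap.mkContinuous
    ⟨⟨fun h => Ψ (InnerProductSpace.toDual ℝ V h), fun a b => by rw [map_add, map_add]⟩,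
      fun c a => by simp⟩ ‖Ψ‖ fun h => by
      simpa using Ψ.le_opNorm (InnerProductSpace.toDual ℝ V h)
  refine ⟨(InnerProductSpace.toDual ℝ V).symm f, fun ψ => ?_⟩
  obtain ⟨h, rfl⟩ := (InnerProductSpace.toDual ℝ V).surjective ψ
  rw [InnerProductSpace.toDual_apply_apply, real_inner_comm, InnerProductSpace.toDual_symm_apply]
  rfl

lemma P_lev (S : Finset ℕ) (x : X) : P {i | i.1 ∈ S} x = ∑ n ∈ S, ι n (π n x) := by
  refine xext fun j => ?_
  rw [co_P, map_sum]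
  simp only [co_ι, Finset.sum_ite_eq]
  by_cases h : j.1 ∈ S <;> simp [h, co_eq]

lemma refl : Function.Surjective (NormedSpace.inclusionInDoubleDual ℝ X) := by
  classical
  intro Φ
  choose x hx using fun n => hrefl (Φ ∘L (ContinuousLinearMap.compL ℝ X H ℝ).flip (π n))
  have h1 : ∀ (S : Finset ℕ) (φ : X →L[ℝ] ℝ),
      Φ (φ ∘L P {i | i.1 ∈ S}) = φ (∑ n ∈ S, ι n (x n)) := by
    intro S φ
    have : φ ∘L P {i | i.1 ∈ S} = ∑ n ∈ S, (φ ∘L ι n) ∘L π n := by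
      ext y
      rw [ContinuousLinearMap.comp_apply, P_lev, map_sum, sum_apply]
      rfl
    rw [this, map_sum, map_sum]
    exact Finset.sum_congr rfl fun n _ => hx n (φ ∘L ι n)
  have h2 : ∀ S : Finset ℕ, ‖∑ n ∈ S, ι n (x n)‖ ≤ ‖Φ‖ := by
    intro S
    obtain ⟨φ, a1, a2⟩ := exists_dual_vector'' ℝ (∑ n ∈ S, ι n (x n))
    have a3 : ‖φ ∘L P {i | i.1 ∈ S}‖ ≤ 1 :=
      ContinuousLinearMap.opNorm_le_bound _ zero_le_one fun y =>
        (φ.le_of_opNorm_le a1 _).trans (mul_le_mul_of_nonneg_left (P_le _ y) zero_le_one)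
    have a4 := Φ.unit_le_opNorm _ a3
    rw [h1, a2] at a4
    simpa using a4
  have h3 : Memℓp (fun n => emb n (x n)) 2 := by
    refine memℓp_gen' (C := ‖Φ‖ ^ (2 : ℝ≥0∞).toReal) fun S => ?_
    rw [← lp.norm_sum_single (by simp)]
    refine Real.rpow_le_rpow (norm_nonneg _) (le_trans (le_of_eq ?_) (h2 S)) (by simp)
    rw [← val_norm, map_sum]
    rfl
  let v : X := ⟨⟨_, h3⟩, (mem_G _).2 fun n γ => rfl⟩
  have hv : ∀ n, π n v = x n := fun n => rfl
  refine ⟨v, ContinuousLinearMap.ext fun φ => ?_⟩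
  show φ v = Φ φ
  refine eq_of_forall_dist_le fun ε hε => ?_
  have hp : 0 < ‖Φ‖ + ‖v‖ + 1 := by positivity
  obtain ⟨F, hF⟩ := sys.shrink φ (ε / (‖Φ‖ + ‖v‖ + 1)) (by positivity)
  set A : Set (ℕ × ℝ) := {i | i.1 ∈ F.image Prod.fst} with hA
  have b1 : ‖φ ∘L P Aᶜ‖ ≤ ε / (‖Φ‖ + ‖v‖ + 1) := by
    refine ContinuousLinearMap.opNorm_le_of_unit_norm (by positivity) fun y hy => ?_
    have e1 : ∀ y, sys.P (F : Set (ℕ × ℝ))ᶜ (sys.P Aᶜ y) = P Aᶜ y := fun y => by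
      have : (F : Set (ℕ × ℝ)) ⊆ A := fun i hi => Finset.mem_image_of_mem Prod.fst hi
      rw [sys.comp, inter_eq_right.2 (compl_subset_compl.2 this)]
      rfl
    have c1 := hF _ ((sys.le Aᶜ y).trans hy.le)
    have c2 := hF _ ((sys.le Aᶜ (-y)).trans (by rw [norm_neg]; exact hy.le))
    rw [e1] at c1 c2
    rw [map_neg, map_neg] at c2
    exact abs_le.2 ⟨by show _ ≤ φ (P Aᶜ y); linarith, c1⟩
  have b2 : φ = φ ∘L P A + φ ∘L P Aᶜ := by
    ext y
    rw [add_apply, ContinuousLinearMap.comp_apply, ContinuousLinearMap.comp_apply, ← map_add]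
    exact congrArg φ (sys.add A y).symm
  have b3 : φ v - Φ φ = (φ ∘L P Aᶜ) v - Φ (φ ∘L P Aᶜ) := by
    conv_lhs => rw [b2, map_add, add_apply, h1, ContinuousLinearMap.comp_apply, P_lev]
    simp only [hv]
    ring
  rw [dist_eq_norm, b3]
  refine (norm_sub_le _ _).trans ?_
  have b4 := (φ ∘L P Aᶜ).le_of_opNorm_le b1 v
  have b5 := (Φ.le_opNorm (φ ∘L P Aᶜ)).trans (mul_le_mul_of_nonneg_left b1 (norm_nonneg _))
  have b6 : ε / (‖Φ‖ + ‖v‖ + 1) * (‖Φ‖ + ‖v‖ + 1) = ε := div_mul_cancel₀ _ hp.ne'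
  have b7 : 0 < ε / (‖Φ‖ + ‖v‖ + 1) := by positivity
  nlinarith

lemma pos (Z : Submodule ℝ (StrongDual ℝ X)) (hZ : IsClosed (Z : Set (StrongDual ℝ X))) :
    ∃ T : StrongDual ℝ X →L[ℝ] StrongDual ℝ X, T.ker = Z := by
  classical
  obtain ⟨g⟩ : Nonempty (ℝ ≃ (ℕ × ℝ) × ℕ) := Cardinal.eq.1 (by simp)
  exact sys.kerpos g refl (π 0) (fun h => ⟨ι 0 h, by rw [π_ι, if_pos rfl]⟩) Z hZ

lemma signs {V α : Type} [NormedAddCommGroup V] [InnerProductSpace ℝ V] (h : α → V) (F : Finset α) :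
    ∃ s : α → ℝ, (∀ a, |s a| = 1) ∧ ∑ a ∈ F, ‖h a‖ ^ 2 ≤ ‖∑ a ∈ F, s a • h a‖ ^ 2 := by
  classical
  induction F using Finset.induction_on with
  | empty => exact ⟨fun _ => 1, by simp, by simp⟩
  | insert j F hj ih =>
    obtain ⟨s, h1, h2⟩ := ih
    have h3 := parallelogram_law_with_norm ℝ (∑ a ∈ F, s a • h a) (h j)
    have key : ∀ t : ℝ, |t| = 1 → ‖∑ a ∈ F, s a • h a‖ ^ 2 + ‖h j‖ ^ 2 ≤
        ‖∑ a ∈ F, s a • h a + t • h j‖ ^ 2 → ∃ s : α → ℝ, (∀ a, |s a| = 1) ∧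
        ∑ a ∈ insert j F, ‖h a‖ ^ 2 ≤ ‖∑ a ∈ insert j F, s a • h a‖ ^ 2 := by
      intro t ht h4
      refine ⟨Function.update s j t, fun a => ?_, ?_⟩
      · by_cases c : a = j
        · rw [c, Function.update_self, ht]
        · rw [Function.update_of_ne c, h1]
      · rw [Finset.sum_insert hj, Finset.sum_insert hj, Function.update_self,
          Finset.sum_congr rfl (g := fun a => s a • h a) fun a ha => by
            rw [Function.update_of_ne fun c : a = j => hj (c ▸ ha)], add_comm (t • h j)]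
        linarith
    rcases le_total ‖∑ a ∈ F, s a • h a + h j‖ ‖∑ a ∈ F, s a • h a - h j‖ with c | c
    · refine key (-1) (by simp) ?_
      rw [neg_one_smul, ← sub_eq_add_neg]
      nlinarith [norm_nonneg (∑ a ∈ F, s a • h a + h j)]
    · refine key 1 (by simp) ?_
      rw [one_smul]
      nlinarith [norm_nonneg (∑ a ∈ F, s a • h a - h j)]

lemma g1_le (i : ℕ × ℝ) : ‖f1 i ∘L val‖ ≤ 1 :=
  ContinuousLinearMap.opNorm_le_bound _ zero_le_one fun x => by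
    rw [one_mul, ← val_norm]
    exact (lp.norm_apply_le_norm (by simp) (val x i.1).1 i.2).trans ((norm_fst_le _).trans
      (lp.norm_apply_le_norm (by simp) (val x) i.1))

noncomputable def σ (γ : ℝ) : X →L[ℝ] ℝ := ∑' n, (1 / 2 : ℝ) ^ n • (f1 (n, γ) ∘L val)

lemma σ_ι (γ : ℝ) (n : ℕ) (h : H) : σ γ (ι n h) = 2 ^ n * h γ := by
  have hsum : Summable fun n : ℕ => (1 / 2 : ℝ) ^ n • (f1 (n, γ) ∘L val) := by
    refine Summable.of_norm_bounded summable_geometric_two fun k => ?_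
    rw [norm_smul, Real.norm_eq_abs, abs_of_pos (by positivity)]
    exact mul_le_of_le_one_right (by positivity) (g1_le _)
  have h1 : HasSum (fun m : ℕ => (1 / 2 : ℝ) ^ m * f1 (m, γ) (val (ι n h))) (σ γ (ι n h)) :=
    hsum.hasSum.mapL (ContinuousLinearMap.apply ℝ ℝ (ι n h))
  have h2 : ∀ m, f1 (m, γ) (val (ι n h)) = 4 ^ m * co (m, γ) (ι n h) := fun m =>
    (mem_G _).1 (ι n h).2 m γ
  refine h1.unique ?_
  convert hasSum_single n fun m hm => ?_ using 1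
  · rw [h2, co_ι, if_pos rfl, ← mul_assoc, ← mul_pow]; norm_num
  · rw [h2, co_ι, if_neg hm]; simp

lemma neg : ∃ Y : Submodule ℝ X, IsClosed (Y : Set X) ∧ ∀ T : X →L[ℝ] X, T.ker ≠ Y := by
  classical
  refine ⟨⨅ γ, (σ γ).ker, ?_, fun T hT => ?_⟩
  · rw [Submodule.coe_iInf]
    exact isClosed_iInter fun φ => ContinuousLinearMap.isClosed_ker _
  have h1 : ∀ x, T x = 0 ↔ ∀ γ, σ γ x = 0 := fun x => by
    have : x ∈ T.ker ↔ x ∈ ⨅ γ, (σ γ).ker := by rw [hT]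
    rw [Submodule.mem_iInf] at this
    exact this
  have h2 : ∀ γ : ℝ, ∃ mk : ℕ × ℕ, 1 / ((mk.2 : ℝ) + 1) < ‖π mk.1 (T (ι 0 (lp.single 2 γ 1)))‖ := by
    intro γ
    by_contra c
    push Not at c
    have h3 : T (ι 0 (lp.single 2 γ 1)) = 0 := xext fun i => by
      have : π i.1 (T (ι 0 (lp.single 2 γ 1))) = 0 := norm_le_zero_iff.1
        (ge_of_tendsto' tendsto_one_div_add_atTop_nhds_zero_nat fun k => c (i.1, k))
      rw [co_eq, this, map_zero]; rfl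
    have h4 := (h1 _).1 h3 γ
    rw [σ_ι, lp.single_apply_self] at h4
    simp at h4
  choose f hf using h2
  obtain ⟨⟨m, k⟩, hmk⟩ : ∃ mk, (f ⁻¹' {mk}).Infinite := by
    by_contra c
    push Not at c
    exact Cardinal.not_countable_real ((countable_iUnion fun mk => (c mk).countable).mono
      fun γ _ => mem_iUnion.2 ⟨f γ, rfl⟩)
  set δ : ℝ := 1 / ((k : ℝ) + 1) with hδ
  have hδ0 : 0 < δ := Nat.one_div_pos_of_nat
  set R : X →L[ℝ] H := π m ∘L T with hR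
  obtain ⟨n, hn⟩ := exists_pow_lt_of_lt_one (show 0 < δ ^ 2 / (2 * (‖R‖ ^ 2 + 1)) by positivity)
    (by norm_num : (1 / 4 : ℝ) < 1)
  obtain ⟨N, hN⟩ := exists_nat_gt (2 * (‖R‖ ^ 2 * 4 ^ n) / δ ^ 2)
  obtain ⟨F, hF1, hF2⟩ := hmk.exists_subset_card_eq N
  obtain ⟨s, s1, s2⟩ := signs (fun γ => R (ι 0 (lp.single 2 γ 1))) F
  set w : H := ∑ γ ∈ F, lp.single 2 γ (s γ) with hw
  have a1 : ∑ γ ∈ F, s γ • R (ι 0 (lp.single 2 γ 1)) = R (ι 0 w) := by
    rw [hw, map_sum, map_sum]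
    refine Finset.sum_congr rfl fun γ _ => ?_
    rw [← map_smul, ← map_smul, ← lp.single_smul]; simp
  have a2 : R (ι 0 w) = R ((1 / 2 : ℝ) ^ n • ι n w) := by
    have : T (ι 0 w - (1 / 2 : ℝ) ^ n • ι n w) = 0 := (h1 _).2 fun γ => by
      rw [map_sub, map_smul, σ_ι, σ_ι, smul_eq_mul, ← mul_assoc, ← mul_pow]; simp
    rw [map_sub, sub_eq_zero] at this
    exact congrArg (π m) this
  have a3 : ‖w‖ ^ 2 = N := by
    have := lp.norm_sum_single (E := fun _ : ℝ => ℝ) (p := 2) (by simp) s F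
    simpa [s1, hF2] using this
  have a4 : ‖inc w‖ ≤ 1 := lp.norm_le_of_forall_le zero_le_one fun γ => by
    show ‖w γ‖ ≤ 1
    rw [hw, lp.coeFn_sum, Finset.sum_apply]
    simp only [lp.coeFn_single, Finset.sum_pi_single]
    split_ifs
    · exact (s1 γ).le
    · simp
  have a5 : ‖ι n w‖ ^ 2 ≤ (4 ^ n) ^ 2 + N := by
    rw [← val_norm, val_ι, lp.norm_single (by simp), ← a3]
    have b1 : ‖(emb n w).1‖ ≤ 4 ^ n := by
      show ‖(4 : ℝ) ^ n • inc w‖ ≤ _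
      rw [norm_smul, Real.norm_eq_abs, abs_of_pos (by positivity)]
      exact mul_le_of_le_one_right (by positivity) a4
    have b2 := pow_le_pow_left₀ (norm_nonneg _) b1 2
    have b3 : ‖(emb n w).2‖ = ‖w‖ := rfl
    rw [Prod.norm_def]
    rcases le_total ‖(emb n w).1‖ ‖(emb n w).2‖ with c | c
    · rw [max_eq_right c, b3]; exact le_add_of_nonneg_left (by positivity)
    · rw [max_eq_left c]; exact b2.trans (le_add_of_nonneg_right (by positivity))
  have a6 : N * δ ^ 2 ≤ ∑ γ ∈ F, ‖R (ι 0 (lp.single 2 γ 1))‖ ^ 2 := by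
    rw [← hF2, ← nsmul_eq_mul]
    refine Finset.card_nsmul_le_sum _ _ _ fun γ hγ => pow_le_pow_left₀ hδ0.le ?_ 2
    have := hf γ
    rw [show f γ = (m, k) from hF1 hγ] at this
    exact this.le
  rw [a1, a2] at s2
  have a7 := pow_le_pow_left₀ (norm_nonneg _) (R.le_opNorm ((1 / 2 : ℝ) ^ n • ι n w)) 2
  have e1 : ((1 / 2 : ℝ) ^ n) ^ 2 = (1 / 4) ^ n := by
    rw [← pow_mul, mul_comm, pow_mul]; norm_num
  rw [norm_smul, mul_pow, mul_pow, Real.norm_eq_abs, sq_abs, e1] at a7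
  have e2 : (1 / 4 : ℝ) ^ n * (4 ^ n) ^ 2 = 4 ^ n := by
    rw [sq, ← mul_assoc, ← mul_pow]; simp
  have a8 : (1 / 4 : ℝ) ^ n * ‖ι n w‖ ^ 2 ≤ 4 ^ n + (1 / 4) ^ n * N := by
    rw [← e2, ← mul_add]
    exact mul_le_mul_of_nonneg_left a5 (by positivity)
  have a9 := mul_le_mul_of_nonneg_left a8 (sq_nonneg ‖R‖)
  rw [lt_div_iff₀ (by positivity)] at hn
  rw [div_lt_iff₀ (by positivity)] at hN
  have a10 : (0:ℝ) ≤ N := Nat.cast_nonneg _
  have a11 : (0:ℝ) ≤ (1 / 4) ^ n := by positivity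
  nlinarith [mul_le_mul_of_nonneg_left hn.le a10, mul_nonneg a10 a11]

end Pool.Agent.H.MP_ad4c49_an
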